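import Mathlib
import Pool.Agent.Y670.KD.Main
import Pool.Agent.Y145.KD.CAT
import Pool.Agent.Y542.KD.NEFF
import Pool.Agent.Y528.KD.TR

set_option autoImplicit false

namespace Pool.Agent.Results.MP_dc233e_lc.AllFiniteDimensions

open Pool.Agent.Helper750.DC Pool.Agent.Helper750.CT Pool.Agent.Helper750.OC Pool.Agent.Y670.KD

/-- For every `n ≥ 2` there are a computable language `L`, a complete theory `T` in `L` and a
structure `A` (with universe `ℕ`) such that `A` is a computable model of `T`, `T` is countably
categorical, `A` has exactly `n` constructivizations up to autoequivalence (dimension `n`), and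
`A` is not effectively infinite. -/
theorem result : ∀ n : ℕ, 2 ≤ n → ∃ (L : Lang) (T : Set Fml) (A : Str),
    L.IsComputable ∧ IsComplete T ∧
    -- `A` is a computable model of `T`
    IsComputableStr L A ∧ IsModel L T A ∧
    -- `T` is countably categorical
    (∀ B C, IsModel L T B → IsModel L T C → ∃ f, IsIso L B C f) ∧
    -- `A` has dimension `n`; in particular it is not autostable
    DimN n L A ∧
    -- `A` is not effectively infinite
    ¬ EffInf L A := by
  intro n hn
  obtain ⟨A, k, hk, hfin, hc, hdim⟩ := all_dims n hn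
  have hfin' := Pool.Agent.Y145.KD.t_CAT A k hk hfin
  have hD := Pool.Agent.Y528.KD.t_TR n _ hdim
  refine ⟨LL, Th LL (Ud k fun _ => A), Ud k fun _ => A,
    ⟨Computable.option_some, Computable.const _⟩, Th_complete _, hc, fun φ hφ => hφ.2, ?_, hD,
    Pool.Agent.Y542.KD.t_NEFF n LL _ (by omega) hD⟩
  intro B C hB hC
  obtain ⟨f, hf⟩ := ryll _ hfin' B hB
  obtain ⟨g, hg⟩ := ryll _ hfin' C hC
  obtain ⟨f', hf1, hf2⟩ := Function.bijective_iff_has_inverse.1 hf.1
  exact ⟨_, iso_trans' (iso_symm' hf hf1 hf2) hg⟩

end Pool.Agent.Results.MP_dc233e_lc.AllFiniteDimensions
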